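import Pool.Agent.V5helper75.BK.Raag
import Pool.Agent.V5helper75.VO.Real

/-!
# Proper actions and the homology of the full subcomplexes
-/

set_option autoImplicit false
set_option linter.unusedSectionVars false

namespace Pool.Agent.V5helper75.LR

open Finset Pool.Agent.W907.SG Pool.Agent.R703.MO Pool.Agent.R782.Bal Pool.Agent.V5helper75.VO
open Pool.Agent.V5helper75.BK

section

variable {V : Type} [Fintype V] [LinearOrder V] {G : SimpleGraph V}

/-- exactness for the induced graph is exactness for the full subcomplex -/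
theorem ex2_ind {A : Set V} [Fintype A] [DecidableEq A] {i : ℕ} (h : Ex2 (G.induce A) Set.univ i) : Ex2 G A i := by
  classical
  intro z hz0 hz
  -- the restriction
  obtain ⟨j, hj⟩ : ∃ j : A ↪ V, ∀ a, j a = a.1 := ⟨Function.Embedding.subtype _, fun a => rfl⟩
  have hjA : ∀ S : Finset A, ((S.map j : Finset V) : Set V) ⊆ A := by
    intro S x hx
    obtain ⟨a, _, ha⟩ := Finset.mem_map.1 (mem_coe.1 hx)
    rw [← ha, hj]
    exact a.2
  have hcl : ∀ S : Finset A, G.IsClique ((S.map j : Finset V) : Set V) ↔ (G.induce A).IsClique (S : Set A) := by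
    intro S
    constructor
    · intro hc a ha b hb hab
      have h1 := hc (mem_coe.2 (Finset.mem_map_of_mem j (mem_coe.1 ha)))
        (mem_coe.2 (Finset.mem_map_of_mem j (mem_coe.1 hb))) (j.injective.ne hab)
      rw [hj, hj] at h1
      exact h1
    · intro hc x hx y hy hxy
      obtain ⟨a, ha, rfl⟩ := Finset.mem_map.1 (mem_coe.1 hx)
      obtain ⟨b, hb, rfl⟩ := Finset.mem_map.1 (mem_coe.1 hy)
      have h1 := hc (mem_coe.2 ha) (mem_coe.2 hb) (fun e => hxy (e ▸ rfl))
      rw [hj, hj]
      exact h1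
  have hsum : ∀ (f : Finset V → ZMod 2) (S : Finset A), (∀ ρ : Finset V, f ρ ≠ 0 → (ρ : Set V) ⊆ A) →
      ∑ v ∈ (S.map j)ᶜ, f (insert v (S.map j)) = ∑ a ∈ Sᶜ, f ((insert a S).map j) := by
    intro f S hf
    have h1 : ∑ a ∈ Sᶜ, f ((insert a S).map j) = ∑ v ∈ (Sᶜ).map j, f (insert v (S.map j)) := by
      rw [Finset.sum_map]
      refine sum_congr rfl fun a _ => ?_
      rw [Finset.map_insert]
    rw [h1]
    symm
    refine Finset.sum_subset ?_ ?_
    · intro x hx
      obtain ⟨a, ha, rfl⟩ := Finset.mem_map.1 hx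
      rw [Finset.mem_compl]
      intro h2
      rw [Finset.mem_map'] at h2
      exact (Finset.mem_compl.1 ha) h2
    · intro x hx hx'
      by_contra h2
      have h3 := hf _ h2 (mem_coe.2 (Finset.mem_insert_self x _))
      apply hx'
      refine Finset.mem_map.2 ⟨⟨x, h3⟩, ?_, hj _⟩
      rw [Finset.mem_compl]
      intro h4
      rw [Finset.mem_compl] at hx
      exact hx (by
        have h5 := Finset.mem_map_of_mem j h4
        rw [hj] at h5
        exact h5)
  obtain ⟨y', hy1, hy2⟩ := h (fun S => z (S.map j)) (fun S hS => by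
      obtain ⟨h1, h2, h3⟩ := hz0 _ hS
      refine ⟨(hcl S).1 h1, Set.subset_univ _, ?_⟩
      rw [← h3, Finset.card_map]) (fun S => by
      rw [← hsum z S fun ρ hρ => (hz0 ρ hρ).2.1]
      exact hz _)
  -- the extension
  obtain ⟨y, hya, hyb⟩ : ∃ y : Finset V → ZMod 2, (∀ S : Finset A, y (S.map j) = y' S) ∧
      ∀ ρ : Finset V, ¬ (ρ : Set V) ⊆ A → y ρ = 0 := by
    refine ⟨fun ρ => if (ρ : Set V) ⊆ A then y' (ρ.subtype (· ∈ A)) else 0, ?_, ?_⟩
    · intro S
      dsimp only
      rw [if_pos (hjA S)]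
      congr 1
      ext a
      rw [Finset.mem_subtype, Finset.mem_map]
      constructor
      · rintro ⟨b, hb, hb'⟩
        rw [hj] at hb'
        rwa [← Subtype.ext hb']
      · intro ha
        exact ⟨a, ha, hj a⟩
    · intro ρ hρ
      exact if_neg hρ
  have hex : ∀ ρ : Finset V, (ρ : Set V) ⊆ A → ∃ S : Finset A, ρ = S.map j := by
    intro ρ hρ
    refine ⟨ρ.subtype (· ∈ A), ?_⟩
    ext x
    rw [Finset.mem_map]
    constructor
    · intro hx
      exact ⟨⟨x, hρ (mem_coe.2 hx)⟩, by rw [Finset.mem_subtype]; exact hx, hj _⟩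
    · rintro ⟨a, ha, rfl⟩
      rw [Finset.mem_subtype] at ha
      rwa [hj]
  have hysup : ∀ ρ : Finset V, y ρ ≠ 0 → (ρ : Set V) ⊆ A := fun ρ hρ => by
    by_contra h1
    exact hρ (hyb ρ h1)
  refine ⟨y, fun ρ hρ => ?_, fun ρ => ?_⟩
  · have h1 := hysup ρ hρ
    obtain ⟨S, rfl⟩ := hex ρ h1
    rw [hya] at hρ
    obtain ⟨h2, _, h3⟩ := hy1 S hρ
    exact ⟨(hcl S).2 h2, h1, by rw [Finset.card_map, h3]⟩
  · by_cases h1 : (ρ : Set V) ⊆ A
    · obtain ⟨S, rfl⟩ := hex ρ h1
      rw [hsum y S hysup, hy2 S]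
      refine sum_congr rfl fun a _ => ?_
      rw [hya]
    · have h2 : z ρ = 0 := by
        by_contra h2
        exact h1 (hz0 ρ h2).2.1
      rw [h2]
      symm
      refine sum_eq_zero fun v _ => ?_
      refine hyb _ fun h3 => h1 fun x hx => h3 (mem_coe.2 (Finset.mem_insert_of_mem (mem_coe.1 hx)))

/-- flats in right-angled Coxeter groups of octahedralizations -/
theorem fl_oct_obs {i : ℕ} (hi : ¬ Obs (oct G) (2 * i)) : Fl (W (oct G)) i := by
  classical
  refine ⟨V ×ₗ Bool, inferInstance, oct G,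
    fun p => gen (oct G) p * gen (oct G) (toLex ((ofLex p).1, !(ofLex p).2)), hi, ?_, ?_⟩
  · intro p q hpq
    have h1 : Commute (gen (oct G) p) (gen (oct G) q) := gen_comm hpq
    have h2 : Commute (gen (oct G) p) (gen (oct G) (toLex ((ofLex q).1, !(ofLex q).2))) :=
      gen_comm (K := oct G) (show G.Adj (ofLex p).1 (ofLex q).1 from hpq)
    have h3 : Commute (gen (oct G) (toLex ((ofLex p).1, !(ofLex p).2))) (gen (oct G) q) :=
      gen_comm (K := oct G) (show G.Adj (ofLex p).1 (ofLex q).1 from hpq)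
    have h4 : Commute (gen (oct G) (toLex ((ofLex p).1, !(ofLex p).2)))
        (gen (oct G) (toLex ((ofLex q).1, !(ofLex q).2))) :=
      gen_comm (K := oct G) (show G.Adj (ofLex p).1 (ofLex q).1 from hpq)
    exact (h1.mul_right h2).mul_left (h3.mul_right h4)
  · intro U U' hU hU' hd p hp
    obtain ⟨⟨v, δ⟩, rfl⟩ := toLex.surjective p
    obtain ⟨f, f1, f2, f3⟩ : ∃ f : V ×ₗ Bool → Equiv.Perm ℤ, f (toLex (v, δ)) = ra ∧ f (toLex (v, !δ)) = rb ∧
        ∀ w γ, w ≠ v → f (toLex (w, γ)) = 1 := by
      refine ⟨fun q => if (ofLex q).1 = v then (if (ofLex q).2 = δ then ra else rb) else 1, ?_, ?_, ?_⟩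
      · simp
      · cases δ <;> simp
      · intro w γ h
        simp [h]
    obtain ⟨E, E1, E2, E3⟩ : ∃ E : V ×ₗ Bool → ℤ, E (toLex (v, δ)) = 1 ∧ E (toLex (v, !δ)) = -1 ∧
        ∀ w γ, w ≠ v → E (toLex (w, γ)) = 0 := by
      refine ⟨fun q => if (ofLex q).1 = v then (if (ofLex q).2 = δ then 1 else -1) else 0, ?_, ?_, ?_⟩
      · simp
      · cases δ <;> simp
      · intro w γ h
        simp [h]
    have hcase : ∀ q : V ×ₗ Bool, q = toLex (v, δ) ∨ q = toLex (v, !δ) ∨ ∃ w γ, w ≠ v ∧ q = toLex (w, γ) := by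
      intro q
      obtain ⟨⟨w, γ⟩, rfl⟩ := toLex.surjective q
      by_cases hw : w = v
      · subst hw
        by_cases hγ : γ = δ
        · subst hγ; exact Or.inl rfl
        · have : γ = !δ := by cases γ <;> cases δ <;> simp_all
          subst this
          exact Or.inr (Or.inl rfl)
      · exact Or.inr (Or.inr ⟨w, γ, hw, rfl⟩)
    obtain ⟨ρ, hρ⟩ := exists_hom (K := oct G) (Γ := Equiv.Perm ℤ) f (by
        intro q
        rcases hcase q with rfl | rfl | ⟨w, γ, hw, rfl⟩
        · rw [f1, ra_sq]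
        · rw [f2, rb_sq]
        · rw [f3 w γ hw, one_mul]) (by
        intro q q' hqq
        rcases hcase q with rfl | rfl | ⟨w, γ, hw, rfl⟩
        · rcases hcase q' with rfl | rfl | ⟨w', γ', hw', rfl⟩
          · exact absurd hqq (G.loopless.irrefl _)
          · exact absurd hqq (G.loopless.irrefl _)
          · rw [f3 w' γ' hw', mul_one, one_mul]
        · rcases hcase q' with rfl | rfl | ⟨w', γ', hw', rfl⟩
          · exact absurd hqq (G.loopless.irrefl _)
          · exact absurd hqq (G.loopless.irrefl _)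
          · rw [f3 w' γ' hw', mul_one, one_mul]
        · rw [f3 w γ hw, mul_one, one_mul])
    refine ⟨ρ, E, ?_, E1.ge, ?_, ?_⟩
    · intro q _
      rcases hcase q with rfl | rfl | ⟨w, γ, hw, rfl⟩
      · rw [E1, ← ra_rb, ← f1, ← f2, ← hρ, ← hρ, ← map_mul]
        rfl
      · have e1 : (!(!δ)) = δ := Bool.not_not δ
        rw [E2, ← rb_ra, ← f1, ← f2, ← hρ, ← hρ, ← map_mul]
        show ρ (gen (oct G) (toLex (v, !δ)) * gen (oct G) (toLex (v, !(!δ)))) = _
        rw [e1]
      · rw [E3 w γ hw, tr_zero, map_mul, hρ, hρ, f3 w γ hw, one_mul]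
        exact f3 w _ hw
    · intro q hq
      rcases hcase q with rfl | rfl | ⟨w, γ, hw, rfl⟩
      · rw [E1]; exact zero_le_one
      · exfalso
        have h4 := hU (mem_coe.2 hq) (mem_coe.2 hp) (by
          intro h5
          have h6 : (!δ) = δ := congrArg (fun p => (ofLex p).2) h5
          cases δ <;> simp at h6)
        exact G.loopless.irrefl _ h4
      · rw [E3 w γ hw]
    · intro q hq
      rcases hcase q with rfl | rfl | ⟨w, γ, hw, rfl⟩
      · exfalso
        exact disjoint_left.1 hd hp hq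
      · rw [E2]; norm_num
      · rw [E3 w γ hw]

/-- flats from the homology modulo 2 of a full subcomplex -/
theorem fl_oct_ex {A : Set V} {i : ℕ} (h : ¬ Ex2 G A i) : Fl (W (oct G)) i := by
  classical
  have : Fintype A := Fintype.ofFinite A
  have h1 : Fl (W (oct (G.induce A))) i := fl_oct_obs fun hO => h (ex2_ind (ex2_of_obs hO))
  refine h1.emb (fun q => toLex ((ofLex q).1.1, (ofLex q).2)) ?_ fun a b => Iff.rfl
  intro a b hab
  have h2 : ((ofLex a).1.1, (ofLex a).2) = ((ofLex b).1.1, (ofLex b).2) := toLex.injective hab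
  apply ofLex.injective
  exact Prod.ext (Subtype.ext (Prod.mk.inj h2).1) (Prod.mk.inj h2).2

theorem fl_raag_ex {A : Set V} {i : ℕ} (h : ¬ Ex2 G A i) : Fl (Raag G) i := by
  classical
  have : Fintype A := Fintype.ofFinite A
  have h1 : Fl (Raag (G.induce A)) i := fl_raag fun hO => h (ex2_ind hO)
  obtain ⟨ι, hι⟩ := raag_hom (G := G.induce A) (Γ := Raag G) (fun a => art G a.1) fun u v huv => art_comm huv
  obtain ⟨r, hr⟩ := raag_hom (G := G) (Γ := Raag (G.induce A)) (fun v => if hv : v ∈ A then art (G.induce A) ⟨v, hv⟩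
    else 1) (fun u v huv => by
      by_cases hu : u ∈ A
      · by_cases hv : v ∈ A
        · rw [dif_pos hu, dif_pos hv]
          exact art_comm huv
        · rw [dif_neg hv, mul_one, one_mul]
      · rw [dif_neg hu, mul_one, one_mul])
  refine h1.push ι r fun x => ?_
  have h2 : r.comp ι = MonoidHom.id _ := PresentedGroup.ext fun a => by
    show r (ι (art (G.induce A) a)) = art (G.induce A) a
    rw [hι, hr, dif_pos a.2]
  exact DFunLike.congr_fun h2 x

end

/-- **Proper actions of commensurable groups.** -/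
theorem fl_com {Γ : Type} [Group Γ] {i : ℕ} (h : Fl Γ i) {E : Type} [Group E] (p : Γ →* E)
    (hp : Function.Injective p) {H : Type} [Group H] (f : H →* E) (hf : Function.Injective f)
    (h1 : (f.range.comap p).FiniteIndex) {X : Type} [TopologicalSpace X] [MulAction H X] [ContinuousConstSMul H X]
    [ProperlyDiscontinuousSMul H X] {n : ℕ} (e : X × X ≃ₜ (Fin (2 * n) → ℝ)) : 2 * i ≤ n := by
  let F : H ≃* f.range := MonoidHom.ofInjective hf
  let κ : (f.range.comap p) →* H := F.symm.toMonoidHom.comp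
    { toFun := fun k => (⟨p k.1, k.2⟩ : f.range)
      map_one' := Subtype.ext (map_one p)
      map_mul' := fun a b => Subtype.ext (map_mul p _ _) }
  have hκf : ∀ k, f (κ k) = p k.1 := by
    intro k
    have h3 : F (κ k) = (⟨p k.1, k.2⟩ : f.range) := F.apply_symm_apply _
    exact congrArg Subtype.val h3
  have hκ : Function.Injective κ := by
    intro a b hab
    apply Subtype.ext
    apply hp
    rw [← hκf, ← hκf, hab]
  let _ : MulAction (f.range.comap p) X := MulAction.compHom X κ
  have a1 : ContinuousConstSMul (f.range.comap p) X := ⟨fun k => continuous_const_smul (κ k)⟩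
  have a2 : ProperlyDiscontinuousSMul (f.range.comap p) X := by
    refine ⟨fun {A B} hA hB => ?_⟩
    have h := ProperlyDiscontinuousSMul.finite_disjoint_inter_image (Γ := H) hA hB
    exact h.preimage (f := κ) hκ.injOn
  exact fl_act (h.sub _ h1) e

section

variable {V : Type} [Fintype V] [LinearOrder V] (G : SimpleGraph V) {X : Type} [TopologicalSpace X]

/-- **Groups commensurable with `W (oct G)`**: if `H` and `W (oct G)` are subgroups of `E` whose intersection has
finite index in `W (oct G)`, and `H` acts properly discontinuously on `X`, where `X × X` is the euclidean space of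
dimension `2 n`, then the full subcomplexes of the flag complex of `G` are acyclic modulo 2 in the degrees `≥ n / 2`. -/
theorem act_com {E : Type} [Group E] (p : W (oct G) →* E) (hp : Function.Injective p) {H : Type} [Group H]
    (f : H →* E) (hf : Function.Injective f) (h1 : (f.range.comap p).FiniteIndex) [MulAction H X]
    [ContinuousConstSMul H X] [ProperlyDiscontinuousSMul H X] {n : ℕ} (e : X × X ≃ₜ (Fin (2 * n) → ℝ)) {i : ℕ}
    (hi : n < 2 * i) (A : Set V) : Ex2 G A i ∧ HomZero G A i := by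
  have h2 : Ex2 G A i := by
    by_contra h
    have h3 := fl_com (fl_oct_ex h) p hp f hf h1 e
    omega
  exact ⟨h2, homZero_of_ex2 h2⟩

/-- **Subgroups of finite index of `W (oct G)`** -/
theorem act_ex (H : Subgroup (W (oct G))) (hH : H.FiniteIndex) [MulAction H X]
    [ContinuousConstSMul H X] [ProperlyDiscontinuousSMul H X] {n : ℕ} (e : X × X ≃ₜ (Fin (2 * n) → ℝ)) {i : ℕ}
    (hi : n < 2 * i) (A : Set V) : Ex2 G A i ∧ HomZero G A i := by
  have h2 : Ex2 G A i := by
    by_contra h
    have h3 := fl_act ((fl_oct_ex h).sub H hH) e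
    omega
  exact ⟨h2, homZero_of_ex2 h2⟩

/-- **Subgroups of finite index of the right-angled Artin group** -/
theorem act_raag (H : Subgroup (Raag G)) (hH : H.FiniteIndex) [MulAction H X]
    [ContinuousConstSMul H X] [ProperlyDiscontinuousSMul H X] {n : ℕ} (e : X × X ≃ₜ (Fin (2 * n) → ℝ)) {i : ℕ}
    (hi : n < 2 * i) (A : Set V) : Ex2 G A i ∧ HomZero G A i := by
  have h2 : Ex2 G A i := by
    by_contra h
    have h3 := fl_act ((fl_raag_ex h).sub H hH) e
    omega
  exact ⟨h2, homZero_of_ex2 h2⟩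

end

end Pool.Agent.V5helper75.LR
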